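import Pool.Agent.H63.SEP.Stmts3

/-!
Project SEP, module LSK: the Loewenheim-Skolem theorem in a model of ZFC, for one formula.
-/

set_option linter.unusedVariables false
set_option synthInstance.maxSize 100000

namespace SW.SEP

open SW

section
variable {M : Type} [SetStr M]

/-- satisfaction in the structure with domain a set is definable -/
theorem lsk_satR_df (A : M) : ∀ {n : ℕ} (f : Fml n) (k : ℕ) (t : Fin n → (Fin k → M) → M),
    (∀ i, DfT (t i)) →
    Df (fun w : Fin k → M => SatR (fun x => E x A) (fun x y => E x y) f (fun i => t i w))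
  | _, .mem i j, k, t, ht => by
      simp only [SatR]
      have := ht i
      have := ht j
      exact Df.mem (t := t i) (s := t j)
  | _, .eq i j, k, t, ht => by
      simp only [SatR]
      have := ht i
      have := ht j
      exact Df.eq (t := t i) (s := t j)
  | _, .bot, k, t, ht => by
      simp only [SatR]
      infer_instance
  | _, .imp f g, k, t, ht => by
      simp only [SatR]
      have := lsk_satR_df A f k t ht
      have := lsk_satR_df A g k t ht
      infer_instance
  | _, .all f, k, t, ht => by
      simp only [SatR]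
      have h1 := lsk_satR_df A f (k + 1)
        (Fin.cons (fun w => w 0) (fun i w => t i (fun j => w j.succ))) (by
          intro i
          refine Fin.cases ?_ (fun j => ?_) i
          · simp only [Fin.cons_zero]
            infer_instance
          · simp only [Fin.cons_succ]
            exact (ht j).ren (fun j => j.succ))
      have h2 : Df (fun w : Fin (k + 1) → M => SatR (fun x => E x A) (fun x y => E x y) f
          (Fin.cons (w 0) (fun i => t i (fun j => w j.succ)))) := by
        refine h1.congr fun w => ?_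
        have : (fun i => (Fin.cons (fun w : Fin (k + 1) → M => w 0)
            (fun i w => t i (fun j => w j.succ)) :
              Fin _ → (Fin (k + 1) → M) → M) i w) =
            (Fin.cons (w 0) (fun i => t i (fun j => w j.succ)) : Fin _ → M) := by
          funext i
          refine Fin.cases ?_ (fun j => ?_) i
          · simp only [Fin.cons_zero]
          · simp only [Fin.cons_succ]
        rw [this]
      exact Df.all (P := fun x (w : Fin k → M) => E x A →
        SatR (fun x => E x A) (fun x y => E x y) f (Fin.cons x (fun i => t i w)))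

end

section
variable {M : Type} [SetStr M] [ZF M]

/-- tuples of members of `X` -/
noncomputable def lsk_pw : ℕ → M → M
  | 0, _ => sing emp
  | n + 1, X => prod X (lsk_pw n X)

theorem lsk_pw_df : ∀ n : ℕ, Fn1 (fun X : M => lsk_pw n X)
  | 0 => by simp only [lsk_pw]; infer_instance
  | n + 1 => by
      have := lsk_pw_df n
      simp only [lsk_pw]
      infer_instance

/-- the code of a tuple -/
noncomputable def lsk_cd : (n : ℕ) → (Fin n → M) → M
  | 0, _ => emp
  | n + 1, v => opair (v 0) (lsk_cd n (fun i => v i.succ))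

/-- the components of a tuple -/
noncomputable def lsk_pr : ℕ → M → M
  | 0, s => p1 s
  | i + 1, s => lsk_pr i (p2 s)

theorem lsk_pr_df : ∀ n : ℕ, Fn1 (fun s : M => lsk_pr n s)
  | 0 => by simp only [lsk_pr]; infer_instance
  | n + 1 => by
      have := lsk_pr_df n
      simp only [lsk_pr]
      infer_instance

theorem lsk_pr_cd : ∀ (n : ℕ) (v : Fin n → M) (i : Fin n), lsk_pr i.1 (lsk_cd n v) = v i
  | 0, _, i => i.elim0
  | n + 1, v, i => by
      refine Fin.cases ?_ (fun j => ?_) i
      · simp [lsk_pr, lsk_cd]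
      · have := lsk_pr_cd n (fun i => v i.succ) j
        simpa [lsk_pr, lsk_cd] using this

theorem lsk_cd_mem : ∀ (n : ℕ) (v : Fin n → M) (X : M), (∀ i, E (v i) X) →
    E (lsk_cd n v) (lsk_pw n X)
  | 0, _, X, _ => by simp [lsk_cd, lsk_pw]
  | n + 1, v, X, h => by
      simp only [lsk_cd, lsk_pw]
      exact mem_prod.2 ⟨h 0, lsk_cd_mem n _ X fun i => h i.succ⟩

theorem lsk_pw_mono : ∀ (n : ℕ) (X Y : M), Sub X Y → Sub (lsk_pw n X) (lsk_pw n Y)
  | 0, _, _, _ => Sub.refl _
  | n + 1, X, Y, h => by
      simp only [lsk_pw]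
      intro z hz
      obtain ⟨a, b, ha, hb, rfl⟩ := mem_prod'.1 hz
      exact mem_prod.2 ⟨h a ha, lsk_pw_mono n X Y h b hb⟩

theorem lsk_pw_cb (hC : CbFacts M) : ∀ (n : ℕ) (X : M), Cb X → Cb (lsk_pw n X)
  | 0, X, h => by
      simp only [lsk_pw]
      refine hC.fin ?_
      have : (sing emp : M) = ins emp emp := ext fun z => by simp
      rw [this]
      exact finF.ins finF.emp
  | n + 1, X, h => by
      simp only [lsk_pw]
      exact hC.prod h (lsk_pw_cb hC n X h)

/-- the members of tuples from a chain are in one member of the chain -/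
theorem lsk_pw_cont (U : M → M) (hU : Fn1 U)
    (hch : ∀ m n, E m om → E n om → Sub (U m) (U n) ∨ Sub (U n) (U m)) : ∀ (n : ℕ) (z : M),
    E z (lsk_pw n (sUn (img om U))) → ∃ m, E m om ∧ E z (lsk_pw n (U m))
  | 0, z, h => ⟨emp, emp_mem_om, by simpa [lsk_pw] using h⟩
  | n + 1, z, h => by
      simp only [lsk_pw] at h ⊢
      obtain ⟨a, b, ha, hb, rfl⟩ := mem_prod'.1 h
      obtain ⟨m2, hm2, hb2⟩ := lsk_pw_cont U hU hch n b hb
      rw [mem_sUn] at ha
      obtain ⟨y, hy, hay⟩ := ha
      obtain ⟨m1, hm1, rfl⟩ := (mem_img' hU).1 hy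
      rcases hch m1 m2 hm1 hm2 with hs | hs
      · exact ⟨m2, hm2, mem_prod.2 ⟨hs a hay, hb2⟩⟩
      · exact ⟨m1, hm1, mem_prod.2 ⟨hay, lsk_pw_mono n _ _ hs b hb2⟩⟩

/-- a closure operator which is good for the formula `f` -/
structure LskOp (A : M) {n : ℕ} (f : Fml n) (H : M → M) : Prop where
  df : Fn1 H
  sub : ∀ X, Sub X A → Sub (H X) A
  cb : ∀ X, Cb X → Cb (H X)
  cont : ∀ U : M → M, Fn1 U →
    (∀ m n, E m om → E n om → Sub (U m) (U n) ∨ Sub (U n) (U m)) →
    ∀ x, E x (H (sUn (img om U))) → ∃ m, E m om ∧ E x (H (U m))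
  sat : ∀ X, Sub X A → Sub (H X) X → ∀ v : Fin n → M, (∀ i, E (v i) X) →
    (SatR (fun x => E x X) (fun x y => E x y) f v ↔
      SatR (fun x => E x A) (fun x y => E x y) f v)

end

section
variable {M : Type} [SetStr M] [ZFC M]

theorem lsk_op (hS : CHSStmt) (hC : CbFacts M) (A : M) (a0 : M) (ha0 : E a0 A) :
    ∀ {n : ℕ} (f : Fml n), ∃ H : M → M, LskOp A f H
  | _, .mem i j => ⟨fun _ => emp, inferInstance, fun X _ z hz => absurd hz (not_mem_emp z),
      fun X _ => hC.fin finF.emp, fun U _ _ x hx => absurd hx (not_mem_emp x),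
      fun X _ _ v _ => by simp only [SatR]⟩
  | _, .eq i j => ⟨fun _ => emp, inferInstance, fun X _ z hz => absurd hz (not_mem_emp z),
      fun X _ => hC.fin finF.emp, fun U _ _ x hx => absurd hx (not_mem_emp x),
      fun X _ _ v _ => by simp only [SatR]⟩
  | _, .bot => ⟨fun _ => emp, inferInstance, fun X _ z hz => absurd hz (not_mem_emp z),
      fun X _ => hC.fin finF.emp, fun U _ _ x hx => absurd hx (not_mem_emp x),
      fun X _ _ v _ => by simp only [SatR]⟩
  | _, .imp f g => by
      obtain ⟨H1, h1⟩ := lsk_op hS hC A a0 ha0 f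
      obtain ⟨H2, h2⟩ := lsk_op hS hC A a0 ha0 g
      have := h1.df
      have := h2.df
      refine ⟨fun X => bun (H1 X) (H2 X), inferInstance, ?_, ?_, ?_, ?_⟩
      · intro X hX z hz
        rcases mem_bun.1 hz with h | h
        · exact h1.sub X hX z h
        · exact h2.sub X hX z h
      · exact fun X hX => hC.bun (h1.cb X hX) (h2.cb X hX)
      · intro U hU hch x hx
        rcases mem_bun.1 hx with h | h
        · obtain ⟨m, hm, h'⟩ := h1.cont U hU hch x h
          exact ⟨m, hm, mem_bun.2 (Or.inl h')⟩
        · obtain ⟨m, hm, h'⟩ := h2.cont U hU hch x h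
          exact ⟨m, hm, mem_bun.2 (Or.inr h')⟩
      · intro X hX hc v hv
        simp only [SatR]
        rw [h1.sat X hX (fun z hz => hc z (mem_bun.2 (Or.inl hz))) v hv,
          h2.sat X hX (fun z hz => hc z (mem_bun.2 (Or.inr hz))) v hv]
  | _, .all (n := n) f => by
      obtain ⟨H1, h1⟩ := lsk_op hS hC A a0 ha0 f
      have := h1.df
      -- choice of witnesses
      have hdf : Cl2 (fun s y : M => SatR (fun x => E x A) (fun x y => E x y) f
          (Fin.cons y (fun i : Fin n => lsk_pr i.1 s))) := by
        refine (lsk_satR_df A f 2 (Fin.cons (fun w => w 1) (fun i w => lsk_pr i.1 (w 0))) (by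
          intro i
          refine Fin.cases ?_ (fun j => ?_) i
          · simp only [Fin.cons_zero]
            infer_instance
          · simp only [Fin.cons_succ]
            exact (lsk_pr_df j.1).comp1 inferInstance)).congr fun w => ?_
        have : (fun i => (Fin.cons (fun w : Fin 2 → M => w 1)
            (fun (i : Fin n) w => lsk_pr i.1 (w 0)) : Fin _ → (Fin 2 → M) → M) i w) =
            (Fin.cons (w 1) (fun i : Fin n => lsk_pr i.1 (w 0)) : Fin _ → M) := by
          funext i
          refine Fin.cases ?_ (fun j => ?_) i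
          · simp only [Fin.cons_zero]
          · simp only [Fin.cons_succ]
        rw [this]
      have hR : ∀ {k : ℕ} {t s : (Fin k → M) → M} [ht : DfT t] [hs : DfT s],
          Df (fun v => SatR (fun x => E x A) (fun x y => E x y) f
            (Fin.cons (s v) (fun i : Fin n => lsk_pr i.1 (t v)))) := fun {k t s} ht hs =>
        hdf.comp2 (R := fun s y => SatR (fun x => E x A) (fun x y => E x y) f
          (Fin.cons y (fun i : Fin n => lsk_pr i.1 s))) ht hs
      obtain ⟨g, hg⟩ := hS M (lsk_pw n A) (fun s y => E y A ∧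
        ((∃ y', E y' A ∧ ¬ SatR (fun x => E x A) (fun x y => E x y) f
            (Fin.cons y' (fun i : Fin n => lsk_pr i.1 s))) →
          ¬ SatR (fun x => E x A) (fun x y => E x y) f
            (Fin.cons y (fun i : Fin n => lsk_pr i.1 s)))) inferInstance (by
          intro s _
          by_cases h : ∃ y', E y' A ∧ ¬ SatR (fun x => E x A) (fun x y => E x y) f
            (Fin.cons y' (fun i : Fin n => lsk_pr i.1 s))
          · obtain ⟨y', hy', h'⟩ := h
            exact ⟨y', hy', fun _ => h'⟩
          · exact ⟨a0, ha0, fun h' => absurd h' h⟩)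
      have := lsk_pw_df (M := M) n
      refine ⟨fun X => bun (H1 X) (img (lsk_pw n X) (fun s => app g s)), inferInstance,
        ?_, ?_, ?_, ?_⟩
      · intro X hX z hz
        rcases mem_bun.1 hz with h | h
        · exact h1.sub X hX z h
        · obtain ⟨s, hs, rfl⟩ := mem_img.1 h
          exact (hg s (lsk_pw_mono n X A hX s hs)).1
      · exact fun X hX => hC.bun (h1.cb X hX)
          (hC.img (fun s => app g s) inferInstance (lsk_pw_cb hC n X hX))
      · intro U hU hch x hx
        rcases mem_bun.1 hx with h | h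
        · obtain ⟨m, hm, h'⟩ := h1.cont U hU hch x h
          exact ⟨m, hm, mem_bun.2 (Or.inl h')⟩
        · obtain ⟨s, hs, rfl⟩ := mem_img.1 h
          obtain ⟨m, hm, h'⟩ := lsk_pw_cont U hU hch n s hs
          exact ⟨m, hm, mem_bun.2 (Or.inr (mem_img.2 ⟨s, h', rfl⟩))⟩
      · intro X hX hc v hv
        have hc1 : Sub (H1 X) X := fun z hz => hc z (mem_bun.2 (Or.inl hz))
        simp only [SatR]
        constructor
        · intro h y hy
          by_contra hn
          have hs : E (lsk_cd n v) (lsk_pw n X) := lsk_cd_mem n v X hv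
          have hpr : (fun i : Fin n => lsk_pr i.1 (lsk_cd n v)) = v :=
            funext fun i => lsk_pr_cd n v i
          have h2 := (hg _ (lsk_pw_mono n X A hX _ hs)).2 ⟨y, hy, by rw [hpr]; exact hn⟩
          rw [hpr] at h2
          have hyX : E (app g (lsk_cd n v)) X :=
            hc _ (mem_bun.2 (Or.inr (mem_img.2 ⟨_, hs, rfl⟩)))
          refine h2 ((h1.sat X hX hc1 _ ?_).1 (h _ hyX))
          intro i
          refine Fin.cases ?_ (fun j => ?_) i
          · simpa using hyX
          · simpa using hv j
        · intro h x hx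
          refine (h1.sat X hX hc1 _ ?_).2 (h x (hX x hx))
          intro i
          refine Fin.cases ?_ (fun j => ?_) i
          · simpa using hx
          · simpa using hv j

end

/-- LSK -/
theorem sep_lsk (hCB : CBTStmt) (hS : CHSStmt) : LSKStmt := by
  intro M _ _ n f A c hcA hcb ⟨a0, ha0⟩
  have hC := hCB M
  obtain ⟨H, hH⟩ := lsk_op hS hC A a0 ha0 f
  have := hH.df
  have hUdf : Fn1 (fun n : M => orec c (fun X => bun X (H X)) n) := inferInstance
  have hz : orec c (fun X => bun X (H X)) emp = c := orec_zero inferInstance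
  have hs : ∀ n, E n om → orec c (fun X => bun X (H X)) (suc n) =
      bun (orec c (fun X => bun X (H X)) n) (H (orec c (fun X => bun X (H X)) n)) :=
    fun n hn => orec_suc (H := fun X => bun X (H X)) inferInstance hn
  generalize hUe : (fun n : M => orec c (fun X => bun X (H X)) n) = U at hUdf
  have hU : ∀ n, orec c (fun X => bun X (H X)) n = U n := fun n => congrFun hUe n
  rw [hU] at hz
  have hs' : ∀ n, E n om → U (suc n) = bun (U n) (H (U n)) := fun n hn => by
    rw [← hU, ← hU]; exact hs n hn
  have := hUdf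
  have hUA : ∀ n, E n om → Sub (U n) A := by
    refine om_ind (C := fun n => Sub (U n) A) inferInstance ?_ ?_
    · rw [hz]; exact hcA
    · intro n hn ih
      rw [hs' n hn]
      intro z hz'
      rcases mem_bun.1 hz' with h | h
      · exact ih z h
      · exact hH.sub _ ih z h
  have hUcb : ∀ n, E n om → Cb (U n) := by
    refine om_ind (C := fun n => Cb (U n)) inferInstance ?_ ?_
    · rw [hz]; exact hcb
    · intro n hn ih
      rw [hs' n hn]
      exact hC.bun ih (hH.cb _ ih)
  have hUm : ∀ n, E n om → ∀ m, E m n → Sub (U m) (U n) := by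
    refine om_ind (C := fun n => ∀ m, E m n → Sub (U m) (U n)) inferInstance ?_ ?_
    · exact fun m hm => absurd hm (not_mem_emp m)
    · intro n hn ih m hm
      rw [hs' n hn]
      rcases mem_suc.1 hm with h | h
      · exact fun z hz' => mem_bun.2 (Or.inl (ih m h z hz'))
      · subst h
        exact fun z hz' => mem_bun.2 (Or.inl hz')
  have hch : ∀ m n, E m om → E n om → Sub (U m) (U n) ∨ Sub (U n) (U m) := by
    intro m n hm hn
    rcases (Ord_nat hm).tri (Ord_nat hn) with h | h | h
    · exact Or.inl (hUm n hn m h)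
    · subst h; exact Or.inl (Sub.refl _)
    · exact Or.inr (hUm m hm n h)
  have hXA : Sub (sUn (img om U)) A := by
    intro z hz'
    rw [mem_sUn] at hz'
    obtain ⟨y, hy, hzy⟩ := hz'
    obtain ⟨m, hm, rfl⟩ := (mem_img' hUdf).1 hy
    exact hUA m hm z hzy
  have hXc : Sub (H (sUn (img om U))) (sUn (img om U)) := by
    intro x hx
    obtain ⟨m, hm, h⟩ := hH.cont U hUdf hch x hx
    rw [mem_sUn]
    refine ⟨U (suc m), (mem_img' hUdf).2 ⟨suc m, suc_mem_om hm, rfl⟩, ?_⟩
    rw [hs' m hm]
    exact mem_bun.2 (Or.inr h)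
  refine ⟨sUn (img om U), ?_, hXA, hC.iUn U hUdf hC.om hUcb, hH.sat _ hXA hXc⟩
  intro z hz'
  rw [mem_sUn]
  exact ⟨U emp, (mem_img' hUdf).2 ⟨emp, emp_mem_om, rfl⟩, by rw [hz]; exact hz'⟩

end SW.SEP
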