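import Pool.Agent.H63.SEP.Stmts3

/-!
Project SEP, module MOS: the Mostowski collapse of a well-founded extensional relation on a set.
-/

set_option linter.unusedVariables false
set_option synthInstance.maxSize 100000

namespace SW.SEP

open SW

/-- MOS -/
theorem sep_mos (hW : WFRStmt) : MOSStmt := by
  intro M _ _ X R hR hwf hext
  have hR2 : ∀ {n : ℕ} {t s : (Fin n → M) → M} [ht : DfT t] [hs : DfT s],
      Df (fun v => R (t v) (s v)) := fun {n t s} ht hs => hR.comp2 ht hs
  obtain ⟨c, hc⟩ := hW M X R (fun _ g => img (dmn g) (fun y => app g y)) hR inferInstance hwf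
  have hcm : ∀ x, E x X → ∀ z, E z (app c x) ↔ ∃ y, E y X ∧ R y x ∧ z = app c y := by
    intro x hx z
    rw [hc x hx, mem_img]
    have hd : ∀ y, E y (dmn (gr (sep X (fun y => R y x)) (fun y => app c y))) ↔
        E y X ∧ R y x := by
      intro y
      rw [mem_dmn]
      constructor
      · rintro ⟨w, hw⟩
        have := ((opair_mem_gr (f := fun y => app c y) inferInstance).1 hw).1
        exact (mem_sep' (hR2 (t := fun w : Fin 1 → M => w 0) (s := fun _ => x))).1 this
      · intro hy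
        exact ⟨app c y, (opair_mem_gr (f := fun y => app c y) inferInstance).2
          ⟨(mem_sep' (hR2 (t := fun w : Fin 1 → M => w 0) (s := fun _ => x))).2 hy, rfl⟩⟩
    constructor
    · rintro ⟨y, hy, rfl⟩
      have hy' := (hd y).1 hy
      refine ⟨y, hy'.1, hy'.2, ?_⟩
      exact app_gr (f := fun y => app c y) inferInstance
        ((mem_sep' (hR2 (t := fun w : Fin 1 → M => w 0) (s := fun _ => x))).2 hy')
    · rintro ⟨y, hy, hyx, rfl⟩
      refine ⟨y, (hd y).2 ⟨hy, hyx⟩, ?_⟩
      exact (app_gr (f := fun y => app c y) inferInstance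
        ((mem_sep' (hR2 (t := fun w : Fin 1 → M => w 0) (s := fun _ => x))).2 ⟨hy, hyx⟩)).symm
  have hinj : ∀ x y, E x X → E y X → app c x = app c y → x = y := by
    by_contra hcon
    have hex : ∃ x, E x (sep X (fun x => ∃ y, E y X ∧ app c x = app c y ∧ ¬ x = y)) := by
      by_contra h
      refine hcon fun x y hx hy e => ?_
      by_contra hne
      exact h ⟨x, mem_sep.2 ⟨hx, y, hy, e, hne⟩⟩
    obtain ⟨x, hx, hmin⟩ := hwf (sep X (fun x => ∃ y, E y X ∧ app c x = app c y ∧ ¬ x = y))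
      (fun z hz => (mem_sep.1 hz).1) hex
    obtain ⟨hxX, y, hyX, e, hne⟩ := mem_sep.1 hx
    have key : ∀ z, E z X → R z x → ∀ z', E z' X → app c z = app c z' → z = z' := by
      intro z hz hzx z' hz' e'
      by_contra hh
      exact hmin z (mem_sep.2 ⟨hz, z', hz', e', hh⟩) hzx
    refine hne (hext x y hxX hyX fun z hz => ⟨fun h => ?_, fun h => ?_⟩)
    · have h1 : E (app c z) (app c x) := (hcm x hxX _).2 ⟨z, hz, h, rfl⟩
      rw [e] at h1
      obtain ⟨z', hz', hz'y, e'⟩ := (hcm y hyX _).1 h1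
      rw [key z hz h z' hz' e']
      exact hz'y
    · have h1 : E (app c z) (app c y) := (hcm y hyX _).2 ⟨z, hz, h, rfl⟩
      rw [← e] at h1
      obtain ⟨z', hz', hz'x, e'⟩ := (hcm x hxX _).1 h1
      rw [← key z' hz' hz'x z hz e'.symm]
      exact hz'x
  refine ⟨c, img X (fun x => app c x), ?_, ?_, ?_, hinj, ?_⟩
  · intro a ha z hz
    obtain ⟨x, hx, rfl⟩ := mem_img.1 ha
    obtain ⟨y, hy, _, rfl⟩ := (hcm x hx z).1 hz
    exact mem_img.2 ⟨y, hy, rfl⟩
  · intro x hx
    exact mem_img.2 ⟨x, hx, rfl⟩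
  · intro a ha
    obtain ⟨x, hx, rfl⟩ := mem_img.1 ha
    exact ⟨x, hx, rfl⟩
  · intro x y hx hy
    constructor
    · intro h
      exact (hcm y hy _).2 ⟨x, hx, h, rfl⟩
    · intro h
      obtain ⟨x', hx', hx'y, e⟩ := (hcm y hy _).1 h
      rw [hinj x x' hx hx' e]
      exact hx'y

end SW.SEP
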