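import Pool.Agent.H63.SEP.Stmts3

/-!
Project SEP, module QLS: in a model of constructibility every point of the Baire space is a member
of a countable transitive structure in which it is in the constructible hierarchy.
-/

set_option linter.unusedVariables false
set_option synthInstance.maxSize 100000

namespace SW.SEP

open SW

/-- the hierarchy is witnessed, in an extensional structure -/
theorem qls_u : UDf (fun M _ (w : Fin 1 → M) => Q0 (w 0) ∧
    ∀ x y : M, (∀ t, E t x ↔ E t y) → x = y) := by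
  have h1 : UDf (fun M _ (w : Fin 1 → M) => ∀ x y : M, (∀ t, E t x ↔ E t y) → x = y) := by
    infer_instance
  exact UDf.and (hP := Q0_u) (hQ := h1)

section
variable {M : Type} [SetStr M] [ZFC M]

/-- the transitive closure of a point is countable -/
theorem qls_cb (hC : CbFacts M) {z : M} (hz : Fnc om om z) : Cb (tc (sing z)) := by
  have hzs : Sub z (prod om om) := fun t ht => by
    obtain ⟨x, y, hx, hy, rfl⟩ := hz.1 t ht
    exact mem_prod.2 ⟨hx, hy⟩
  have hsg : ∀ x : M, Fnt (sing x) := fun x => by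
    have : sing x = ins x emp := ext fun z => by simp
    rw [this]
    exact finF.ins finF.emp
  have hup : ∀ x y : M, Fnt (upair x y) := fun x y => by
    have : upair x y = ins x (sing y) := ext fun z => by
      simp only [mem_upair, mem_ins, mem_sing]
      exact or_comm
    rw [this]
    exact finF.ins (hsg y)
  refine hC.sub (x := bun (sing z) (bun z (bun (sep (pow om) (fun y => Fnt y)) om))) ?_
    (tc_min ?_ ?_)
  · exact hC.bun (hC.fin (hsg z)) (hC.bun (hC.sub (hC.prod hC.om hC.om) hzs)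
      (hC.bun (hC.fsub hC.om) hC.om))
  · intro t ht
    exact mem_bun.2 (Or.inl ht)
  · intro t ht s hs
    rcases mem_bun.1 ht with h | h
    · rw [mem_sing.1 h] at hs
      exact mem_bun.2 (Or.inr (mem_bun.2 (Or.inl hs)))
    rcases mem_bun.1 h with h | h
    · obtain ⟨x, y, hx, hy, rfl⟩ := hz.1 t h
      refine mem_bun.2 (Or.inr (mem_bun.2 (Or.inr (mem_bun.2 (Or.inl (mem_sep.2 ?_))))))
      unfold opair at hs
      rcases mem_upair.1 hs with rfl | rfl
      · refine ⟨mem_pow.2 fun w hw => ?_, hsg x⟩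
        rw [mem_sing.1 hw]
        exact hx
      · refine ⟨mem_pow.2 fun w hw => ?_, hup x y⟩
        rcases mem_upair.1 hw with rfl | rfl
        · exact hx
        · exact hy
    rcases mem_bun.1 h with h | h
    · exact mem_bun.2 (Or.inr (mem_bun.2 (Or.inr (mem_bun.2
        (Or.inr (mem_pow.1 (mem_sep.1 h).1 s hs))))))
    · exact mem_bun.2 (Or.inr (mem_bun.2 (Or.inr (mem_bun.2 (Or.inr (Trans_om t h s hs))))))

end

/-- QLS -/
theorem sep_qls (hL : LSKStmt) (hM : MOSStmt) (hS : SRIStmt) (hA : ABHStmt) (hCB : CBTStmt) :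
    QLSStmt := by
  intro M _ _ hQ z hz
  have hC := hCB M
  obtain ⟨φ, hφ⟩ := qls_u.out
  obtain ⟨d, f, g, o, y, hHW, hP, hzy⟩ := hQ z
  obtain ⟨B, hBt, hzB, hdB, hfB, hgB, hoB, hyB⟩ : ∃ B : M, Trans B ∧ E z B ∧ E d B ∧ E f B ∧
      E g B ∧ E o B ∧ E y B := by
    refine ⟨tc (ins z (ins d (ins f (ins g (ins o (sing y)))))), Trans_tc _, ?_, ?_, ?_, ?_, ?_,
      ?_⟩ <;> exact sub_tc _ _ (by simp)
  have hemb : TEmb (fun x : SubS B => x.1) :=
    ⟨fun x y h => Subtype.ext h, fun x y => Iff.rfl,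
      fun t x ht => ⟨⟨t, hBt x.1 x.2 t ht⟩, rfl⟩⟩
  have hQB : Q0 (N := SubS B) ⟨z, hzB⟩ := by
    obtain ⟨h1, h2⟩ := hA (SubS B) M (fun x => x.1) hemb
    exact ⟨⟨d, hdB⟩, ⟨f, hfB⟩, ⟨g, hgB⟩, ⟨o, hoB⟩, ⟨y, hyB⟩,
      (h1 ⟨d, hdB⟩ ⟨f, hfB⟩ ⟨g, hgB⟩ ⟨o, hoB⟩).1 hHW,
      (h2 ⟨d, hdB⟩ ⟨y, hyB⟩ ⟨f, hfB⟩).1 hP, hzy⟩
  have hextB : ∀ x y : SubS B, (∀ t, E t x ↔ E t y) → x = y := by
    intro x y h
    refine Subtype.ext (ext fun t => ⟨fun ht => ?_, fun ht => ?_⟩)
    · exact (h ⟨t, hBt x.1 x.2 t ht⟩).1 ht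
    · exact (h ⟨t, hBt y.1 y.2 t ht⟩).2 ht
  have hzz : ∀ i : Fin 1, (![z] : Fin 1 → M) i = z := fun i => by fin_cases i; rfl
  have hsB : SatR (fun x => E x B) (fun x y => E x y) φ ![z] := by
    refine (hS M (fun x => E x B) (fun x y => E x y) B (fun x => x) (fun x h => h)
      (fun a h => ⟨a, h, rfl⟩) (fun x y _ _ h => h) (fun x y _ _ => Iff.rfl) 1 φ ![z]
      (fun i => by rw [hzz i]; exact hzB) (fun i => by rw [hzz i]; exact hzB)).2 ?_
    exact (hφ (SubS B) _).1 ⟨hQB, hextB⟩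
  have hTB : Sub (tc (sing z)) B := tc_min (fun t ht => by rw [mem_sing.1 ht]; exact hzB) hBt
  obtain ⟨X, hcX, hXB, hXcb, hX⟩ := hL M 1 φ B (tc (sing z)) hTB (qls_cb hC hz) ⟨z, hzB⟩
  have hzT : E z (tc (sing z)) := sub_tc _ _ (by simp)
  have hzX : E z X := hcX z hzT
  have hsX : SatR (fun x => E x X) (fun x y => E x y) φ ![z] :=
    (hX ![z] (fun i => by rw [hzz i]; exact hzX)).2 hsB
  have hextX : ∀ x y, E x X → E y X → (∀ t, E t X → (E t x ↔ E t y)) → x = y := by
    have h1 := (hS M (fun x => E x X) (fun x y => E x y) X (fun x => x) (fun x h => h)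
      (fun a h => ⟨a, h, rfl⟩) (fun x y _ _ h => h) (fun x y _ _ => Iff.rfl) 1 φ ![z]
      (fun i => by rw [hzz i]; exact hzX) (fun i => by rw [hzz i]; exact hzX)).1 hsX
    have h2 := ((hφ (SubS X) _).2 h1).2
    intro x y hx hy h
    exact congrArg Subtype.val (h2 ⟨x, hx⟩ ⟨y, hy⟩ fun t => h t.1 t.2)
  obtain ⟨c, A, hAt, hcA, hsur, hinj, hiff⟩ := hM M X (fun x y => E x y) inferInstance
    (fun a _ hne => ZF.found a hne) hextX
  -- the collapse fixes the transitive closure of the point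
  have hfix : ∀ x, E x (tc (sing z)) → app c x = x := by
    refine mem_induction (C := fun x => E x (tc (sing z)) → app c x = x) inferInstance ?_
    intro x ih hx
    have hxX : E x X := hcX x hx
    refine ext fun w => ⟨fun hw => ?_, fun hw => ?_⟩
    · obtain ⟨y', hy', rfl⟩ := hsur w (hAt _ (hcA x hxX) w hw)
      have h1 := (hiff y' x hy' hxX).2 hw
      rw [ih y' h1 (Trans_tc _ x hx y' h1)]
      exact h1
    · have h2 : E w (tc (sing z)) := Trans_tc _ x hx w hw
      have h3 := (hiff w x (hcX w h2) hxX).1 hw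
      rw [ih w hw h2] at h3
      exact h3
  have hcz : app c z = z := hfix z hzT
  have hzA : E z A := by
    have := hcA z hzX
    rwa [hcz] at this
  have hAcb : Cb A := by
    refine hC.sub (hC.img (fun x => app c x) inferInstance hXcb) fun a ha => ?_
    obtain ⟨x, hx, rfl⟩ := hsur a ha
    exact mem_img.2 ⟨x, hx, rfl⟩
  refine ⟨A, hAt, hAcb, hzA, ?_⟩
  have h1 := (hS M (fun x => E x X) (fun x y => E x y) A (fun x => app c x) hcA hsur
    hinj hiff 1 φ ![z] (fun i => by rw [hzz i]; exact hzX)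
    (fun i => by rw [hzz i, hcz]; exact hzA)).1 hsX
  have h2 := ((hφ (SubS A) _).2 h1).1
  have h3 : (⟨app c ((![z] : Fin 1 → M) 0), by
      rw [hzz 0, hcz]; exact hzA⟩ : SubS A) = ⟨z, hzA⟩ := Subtype.ext (by
    show app c ((![z] : Fin 1 → M) 0) = z
    rw [hzz 0, hcz])
  rw [h3] at h2
  exact h2

end SW.SEP
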