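import Pool.Agent.H63.SEP.Stmts3

/-!
Project SEP, module QUP: members of transitive structures with witnesses are in the ground model.
-/

set_option linter.unusedVariables false
set_option synthInstance.maxSize 100000

namespace SW.SEP

open SW

/-- QUP -/
theorem sep_qup (hO : OMQStmt) (hA : ABHStmt) (hE : HWEStmt) (hU : HWUStmt) : QUPStmt := by
  intro M N _ _ _ _ i hi hon A z h hAt hQ
  obtain ⟨d, f, g, o, y, hHW, hP, hzy⟩ := hQ
  have hemb : TEmb (fun x : SubS A => x.1) :=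
    ⟨fun x y h => Subtype.ext h, fun x y => Iff.rfl,
      fun t x ht => ⟨⟨t, hAt x.1 x.2 t ht⟩, rfl⟩⟩
  obtain ⟨h1, h2⟩ := hA (SubS A) N (fun x => x.1) hemb
  have hHW' : HW d.1 f.1 g.1 o.1 := (h1 d f g o).2 hHW
  have hP' : PairIn d.1 y.1 f.1 := (h2 d y f).2 hP
  have hod : Ord d.1 := ((hO N d.1).2.2 d.1).1 hHW'.1
  obtain ⟨d0, hd0, hdd⟩ := hon d.1 hod
  obtain ⟨f0, g0, hHW0⟩ := hE M d0 hd0
  obtain ⟨h3, h4⟩ := hA M N i hi
  have hHWi : HW (i d0) (i f0) (i g0) (i om) := (h3 _ _ _ _).2 hHW0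
  obtain ⟨y0, hy0⟩ := hHW0.2.2.1.1 d0 (Or.inr rfl)
  have hPi : PairIn (i d0) (i y0) (i f0) := (h4 _ _ _).2 hy0
  rw [← hdd] at hPi hHWi
  have hy : y.1 = i y0 := hU N d.1 f.1 g.1 o.1 d.1 (i f0) (i g0) (i om) d.1 y.1 (i y0) hHW' hHWi
    (Or.inr rfl) (Or.inr rfl) hP' hPi
  refine hi.tr z y0 ?_
  rw [← hy]
  exact hzy

end SW.SEP
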